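import Mathlib
import Pool.Agent.H79.TD.Stm2

/-!
# Project EX, module MLT: multiplicities are invariant
-/

set_option autoImplicit false

open Module Pool.Agent.H77.TF Pool.Agent.H79.TD

namespace Pool.Agent.H71.TD

theorem finrank_pair {F V : Type} [Field F] [AddCommGroup V] [Module F V] (u v : V) (hu : u ≠ 0)
    (h : ∀ c : F, v ≠ c • u) : finrank F (Submodule.span F {u, v}) = 2 := by
  have h1 : LinearIndependent F ![u, v] :=
    (LinearIndependent.pair_iff' hu).2 fun a ha => h a ha.symm
  have h2 := finrank_span_eq_card h1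
  rw [Fintype.card_fin, Matrix.range_cons, Matrix.range_cons, Matrix.range_empty, Set.union_empty] at h2
  exact h2

/-- **Module MLT.** -/
theorem t_MLT : S_MLT := by
  intro K L _ _ n m A B hA hB β hβ W hW h2
  have hn : Nontrivial {i // B i ∈ W} := Finite.one_lt_card_iff_nontrivial.1 h2
  obtain ⟨⟨i', hi'⟩, ⟨j', hj'⟩, hne⟩ := hn
  have hij : i' ≠ j' := fun h => hne (Subtype.ext h)
  obtain ⟨i, rfl⟩ := β.surjective i'
  obtain ⟨j, rfl⟩ := β.surjective j'
  have hij' : i ≠ j := fun h => hij (by rw [h])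
  have hWs : Submodule.span L {B (β i), B (β j)} = W := by
    refine Submodule.eq_of_le_of_finrank_eq ?_ ?_
    · rw [Submodule.span_le]
      rintro x (rfl | rfl)
      · exact hi'
      · exact hj'
    · rw [hW]
      exact finrank_pair _ _ (hB.1 _) fun c => hB.2 _ _ hij.symm c
  refine ⟨Submodule.span K {A i, A j}, finrank_pair _ _ (hA.1 _) fun c => hA.2 _ _ hij'.symm c, ?_⟩
  refine Nat.card_congr (β.subtypeEquiv fun k => ?_)
  rw [← hWs]
  exact hβ i j k

end Pool.Agent.H71.TD
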