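import Mathlib
import Pool.Agent.H79.TD.Stm3
import Pool.Agent.H77.TF.Fin2
import Pool.Agent.H27.TF.Cnt
import Pool.Agent.H71.TD.Mlt

/-!
# Project EX, module TRF: the transfer in terms of the relation
-/

set_option autoImplicit false

open MvPolynomial Module Pool.Agent.H77.TF Pool.Agent.H79.TD

namespace Pool.Agent.H71.TD

theorem lin_ne {K : Type} [Field K] {l : ℕ} {a : Fin l → K} (ha : a ≠ 0) : lin a ≠ 0 := by
  obtain ⟨j, hj⟩ := Function.ne_iff.1 ha
  intro h
  apply hj
  have h1 := congrArg (coeff (Finsupp.single j 1)) h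
  rw [lin, coeff_sum, Finset.sum_eq_single j] at h1
  · simpa [coeff_C_mul] using h1
  · intro i _ hij
    rw [coeff_C_mul, coeff_X, if_neg, mul_zero]
    intro h2
    exact hij (Finsupp.single_left_injective one_ne_zero h2)
  · intro h2
    exact absurd (Finset.mem_univ j) h2

/-- the sum of the exponents -/
theorem sum_exp (hSAC : S_SAC) {K : Type} [Field K] {n : ℕ} {A : Fin n → Fin 3 → K} (hA : Simple A)
    {e : Fin 3 → ℕ} (h : HasExp A e) : ∑ j, e j = n := by
  obtain ⟨b, hb⟩ := h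
  obtain ⟨c, hc, hdet⟩ := hSAC K (Fin n) A hA b
  have h1 := Pool.Agent.H27.TF.det_hom (e := e) hb
  have h2 : (C c * ∏ i, lin (A i) : MvPolynomial (Fin 3) K).IsHomogeneous (0 + ∑ _i : Fin n, 1) :=
    (isHomogeneous_C (Fin 3) c).mul (IsHomogeneous.prod _ _ _ fun i _ => Pool.Agent.H27.TF.lin_hom (A i))
  have h3 : (C c * ∏ i, lin (A i) : MvPolynomial (Fin 3) K) ≠ 0 :=
    mul_ne_zero (by rwa [Ne, C_eq_zero]) (Finset.prod_ne_zero_iff.2 fun i _ => lin_ne (hA.1 i))
  rw [hdet] at h1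
  have h4 := h1.inj_right h2 h3
  simpa using h4

/-- permutation of the last two exponents -/
theorem hasExp_swap {K : Type} [Field K] {n : ℕ} {A : Fin n → Fin 3 → K} {a b : ℕ}
    (h : HasExp A ![1, a, b]) : HasExp A ![1, b, a] := by
  obtain ⟨c, hc⟩ := h
  refine ⟨c.reindex (Equiv.swap 1 2), fun j i => ?_⟩
  rw [Basis.reindex_apply, Equiv.symm_swap]
  have := hc (Equiv.swap 1 2 j) i
  fin_cases j
  · exact this
  · exact this
  · exact this

theorem char_ok {K : Type} [Field K] [Fintype K] {a b : ℕ} (hab : a ≤ b) (hb : b < Fintype.card K)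
    (h : Nat.Prime (Fintype.card K) ∨ a ≤ ringChar K) : ∀ k : ℕ, 0 < k → k < a → (k : K) ≠ 0 := by
  intro k hk hka h0
  have h1 : ringChar K ∣ k := (ringChar.spec K k).1 h0
  have h2 := Nat.le_of_dvd hk h1
  rcases h with h | h
  · obtain ⟨f, hp, hf⟩ := FiniteField.card K (ringChar K)
    rw [hf] at h
    have h3 : (f : ℕ) = 1 := by
      by_contra hc
      exact Nat.Prime.not_prime_pow' hc h
    rw [h3, pow_one] at hf
    omega
  · omega

/-- **Module TRF.** -/
theorem t_TRF (hCRT : S_CRT) (hMUL : S_MUL) (hUEX : S_UEX) (hLT2 : S_LT2) (hDU2 : S_DU2)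
    (hFIN4 : S_FIN4) (hFIN3 : S_FIN3) (hBP3 : S_BP3) (hSAC : S_SAC) : S_TRF := by
  intro K _ _ n m A B hA hB β hβ a b hab h2 hchar hE
  have hmn : n = m := by simpa using Fintype.card_congr β
  subst hmn
  have hsum := sum_exp hSAC hA hE
  have hs3 : ∑ j, (![1, a, b] : Fin 3 → ℕ) j = 1 + a + b := by
    rw [Fin.sum_univ_three]
    rfl
  rw [hs3] at hsum
  have hn : 1 ≤ n := by omega
  have hfree : Module.Free (MvPolynomial (Fin 3) K) (LD A) := by
    obtain ⟨c, -⟩ := hE
    exact Module.Free.of_basis c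
  have huncD : uncD A = uncD B := hLT2 K 3 n n A B hA hB β hβ
  obtain ⟨hF, hT⟩ := (hFIN4 K).1 n A hn hA
  rcases hF hfree with h0 | ⟨u, w, hu, huw, huwn, hun⟩
  · rw [hDU2 K 3 (Fin n) A (by norm_num)] at h0
    have h0B : uncD B = 0 := by rw [← huncD, h0]
    have : Nonempty (Fin n) := ⟨⟨0, hn⟩⟩
    have hPA : Pts A = ∅ := (hBP3 K (Fin n) A).2 (uncD_eq_zero.1 h0)
    have hPB : Pts B = ∅ := (hBP3 K (Fin n) B).2 (uncD_eq_zero.1 h0B)
    have hEA := (hFIN3 K n A hn hA).2.1 hPA
    have hEB := (hFIN3 K n B hn hB).2.1 hPB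
    rcases le_total (Fintype.card K) (n - 1 - Fintype.card K) with hle | hle
    · obtain ⟨e1, e2⟩ := hUEX K (Fin n) A a b _ _ hab hle hE hEA
      rw [e1, e2]
      exact hEB
    · obtain ⟨e1, e2⟩ := hUEX K (Fin n) A a b _ _ hab hle hE (hasExp_swap hEA)
      rw [e1, e2]
      exact hasExp_swap hEB
  · obtain ⟨-, htfae, -⟩ := hT u w hu huw huwn hun
    have hEA := (htfae.out 0 1).1 hfree
    obtain ⟨e1, e2⟩ := hUEX K (Fin n) A a b _ _ hab (by omega) hE hEA
    have hw : w ≤ Fintype.card K := by omega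
    have huq : u ≤ Fintype.card K := huw.trans hw
    have hv := (htfae.out 0 2).1 hfree
    have hVD : ∀ k < u, VD A k = ⊥ := by
      intro k hk
      rw [eq_bot_iff]
      intro f hf
      exact (Submodule.mem_bot K).2 (hv k hk f hf.1 hf.2)
    have hbq : b < Fintype.card K := by omega
    refine hCRT K n B a b hB hab hbq (by omega) ?_ h2 (char_ok hab hbq hchar) ?_
    · rw [← huncD, ← hDU2 K 3 (Fin n) A (by norm_num), hun, e1, e2, Nat.sub_sub_self hw,
        Nat.sub_sub_self huq, mul_comm]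
    · intro W hW
      by_cases hcard : 2 ≤ Nat.card {i // B i ∈ W}
      · obtain ⟨W', hW', hc⟩ := t_MLT K K n n A B hA hB β hβ W hW hcard
        have := hMUL K (Fin n) A u W' hA hVD hW'
        omega
      · omega

end Pool.Agent.H71.TD
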