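import Mathlib
import Pool.Agent.H71.TD.Trf

/-!
# Project EX, module FIN5: the final statement for finite fields
-/

set_option autoImplicit false

open MvPolynomial Module Pool.Agent.H77.TF Pool.Agent.H79.TD

namespace Pool.Agent.H71.TD

/-- **Module FIN5.** -/
theorem t_FIN5 (hCRT : S_CRT) (hTRF : S_TRF) (hMUL : S_MUL) (hFIN4 : S_FIN4) (hBIJ : S_BIJ)
    (hDU2 : S_DU2) : S_FIN5 := by
  intro K _ _ a b hab h2 hchar
  refine ⟨fun n A hA hb hn hunc => ⟨fun hfree W hW => ?_, fun h => ?_⟩, fun n m A B hA hB hiso hE => ?_⟩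
  · have hu : 1 ≤ Fintype.card K - b := by omega
    have huw : Fintype.card K - b ≤ Fintype.card K - a := by omega
    have hsum : Fintype.card K - b + (Fintype.card K - a) + n = 2 * Fintype.card K + 1 := by omega
    obtain ⟨-, htfae, -⟩ := ((hFIN4 K).1 n A (by omega) hA).2 _ _ hu huw hsum (by rw [hunc, mul_comm])
    have hv := (htfae.out 0 2).1 hfree
    have hVD : ∀ k < Fintype.card K - b, VD A k = ⊥ := by
      intro k hk
      rw [eq_bot_iff]
      intro f hf
      exact (Submodule.mem_bot K).2 (hv k hk f hf.1 hf.2)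
    have := hMUL K (Fin n) A _ W hA hVD hW
    omega
  · rw [hDU2 K 3 (Fin n) A (by norm_num)] at hunc
    obtain ⟨c, -⟩ := hCRT K n A a b hA hab hb hn hunc h2 (char_ok hab hb hchar) h
    exact Module.Free.of_basis c
  · obtain ⟨β, hβ⟩ := hBIJ K 3 n m A B hA hB hiso
    refine ⟨?_, hTRF K n m A B hA hB β hβ a b hab h2 hchar hE⟩
    simpa using (Fintype.card_congr β).symm

end Pool.Agent.H71.TD
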