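import Mathlib
import Pool.Agent.H79.TD.Stm4

/-!
# Project EX, module FLD
-/

set_option autoImplicit false

open Pool.Agent.H79.TD

namespace Pool.Agent.H71.TD

/-- **Module FLD.** -/
theorem t_FLD : S_FLD := by
  intro R S _ _ _ f hf
  let M : Submonoid S := (nonZeroDivisors R).map f
  have h0 : (0 : S) ∉ M := by
    rintro ⟨r, hr, hr0⟩
    have h1 : r = 0 := hf (by rw [map_zero]; exact hr0)
    exact nonZeroDivisors.ne_zero hr h1
  have hn : Nontrivial (Localization M) := by
    by_contra hc
    rw [not_nontrivial_iff_subsingleton, IsLocalization.subsingleton_iff (M := M)] at hc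
    exact h0 hc
  obtain ⟨m, hm⟩ := Ideal.exists_maximal (Localization M)
  let _ : Field (Localization M ⧸ m) := Ideal.Quotient.field m
  refine ⟨Localization M ⧸ m, inferInstance, (Ideal.Quotient.mk m).comp (algebraMap S (Localization M)), ?_⟩
  rw [injective_iff_map_eq_zero]
  intro r hr
  by_contra hr0
  have h1 : f r ∈ M := ⟨r, mem_nonZeroDivisors_of_ne_zero hr0, rfl⟩
  have h2 : IsUnit (algebraMap S (Localization M) (f r)) := IsLocalization.map_units _ ⟨f r, h1⟩
  have h3 : IsUnit (Ideal.Quotient.mk m (algebraMap S (Localization M) (f r))) := h2.map _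
  exact h3.ne_zero hr

end Pool.Agent.H71.TD
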